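import Pool.Agent.Lib.MP_f76cdc_ag.CharTwo

namespace Pool.Agent.Results.MP_f76cdc_ag.Q1CharTwo

open Pool.Agent.Lib.MP_f76cdc_ag

/-- Q1 in characteristic two, exactly for `n = 2, 3` and for all `m + 1 ≥ 2^(4n-3)` in general:
a space `L_{m+1,n}` exists if and only if `2^(n-1)` divides `m + 1`. -/
theorem result (k : Type*) [Field k] [IsAlgClosed k] [CharP k 2] [Algebra (ZMod 2) k]
    (n m : ℕ) (hn : 2 ≤ n) (h : n ≤ 3 ∨ 2 ^ (4 * n - 3) ≤ m + 1) :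
    (∃ V : Submodule (ZMod 2) (RatFunc k), IsSpaceL 2 m n V) ↔ 2 ^ (n - 1) ∣ m + 1 :=
  char2_main n m hn h

end Pool.Agent.Results.MP_f76cdc_ag.Q1CharTwo
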