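import Pool.Agent.Lib.MP_f76cdc_ag.Family1

namespace Pool.Agent.Results.MP_f76cdc_ag.Q2EveryOddPrime

open Pool.Agent.Lib.MP_f76cdc_ag

/-- A three-parameter family of spaces `L_{m+1,n}` in every characteristic `p`, with
`m + 1 = p^(n-1) (j p (p^n - p^(n-1) - 1) + c (p - 1))`, `j ≥ 0`, `c = 1` or `c` a positive multiple
of `p`. The divisibility of Q2 holds for a member exactly when `p - 1` divides `j`, so `j = c = 1`
refutes Q2 for every odd `p` and every `n ≥ 2`. -/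
theorem result (p : ℕ) [Fact p.Prime] (k : Type*) [Field k] [IsAlgClosed k] [CharP k p]
    [Algebra (ZMod p) k] (n j c m : ℕ) (hn : 2 ≤ n) (hc : c = 1 ∨ (p ∣ c ∧ c ≠ 0))
    (hm : m + 1 = p ^ (n - 1) * (j * p * (p ^ n - p ^ (n - 1) - 1) + c * (p - 1))) :
    (∃ V : Submodule (ZMod p) (RatFunc k), IsSpaceL p m n V) ∧
      (p ^ (n - 1) * (p - 1) ∣ m + 1 ↔ (p - 1) ∣ j) := by
  obtain ⟨d, rfl⟩ : ∃ d, n = d + 1 := ⟨n - 1, by omega⟩
  rw [Nat.add_sub_cancel] at hm ⊢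
  have hp2 := (Fact.out : p.Prime).two_le
  obtain ⟨r, rfl⟩ : ∃ r, p = r + 1 := ⟨p - 1, by omega⟩
  rw [Nat.add_sub_cancel] at hm ⊢
  have h1 : 1 ≤ (r + 1) ^ d := Nat.one_le_pow _ _ (by omega)
  have h2 : 1 ≤ (r + 1) ^ d * r := Nat.mul_pos h1 (by omega)
  obtain ⟨A, hA⟩ : ∃ A, (r + 1) ^ d * r = A + 1 := ⟨(r + 1) ^ d * r - 1, by omega⟩
  have h3 : (r + 1) ^ (d + 1) - (r + 1) ^ d - 1 = A := by
    rw [pow_succ, mul_add, hA]; omega
  rw [h3] at hm
  refine ⟨family1 (r + 1) d j c hc m ?_, ?_⟩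
  · rw [hm, pow_succ]
    generalize (r + 1) ^ d = E at *
    zify at hA ⊢
    linear_combination (-(E : ℤ) * j * (r + 1)) * hA
  · rw [hm, Nat.mul_dvd_mul_iff_left (by omega), Nat.dvd_add_left (dvd_mul_left _ _)]
    constructor
    · intro h
      have h4 : Nat.Coprime r A := by
        have : Nat.Coprime (A + 1) A := by simp
        rw [← hA] at this
        exact Nat.Coprime.coprime_mul_left this
      have h5 : Nat.Coprime r (r + 1) := by simp
      exact h5.dvd_of_dvd_mul_right (h4.dvd_of_dvd_mul_right h)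
    · intro h
      exact (h.mul_right _).mul_right _

end Pool.Agent.Results.MP_f76cdc_ag.Q2EveryOddPrime
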